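import Pool.Agent.H87.CLG.Targets

/-!
# Row PCM: the elements of the derived subgroup
-/

set_option autoImplicit false

open MvPolynomial
open scoped commutatorElement

namespace Pool.Agent.H1.CLG

open Pool.Agent.H87.CLG

universe u v

/-- the product of the commutators of a list of pairs -/
def lc {N : Type u} [Group N] (l : List (N × N)) : N := (l.map fun p => ⁅p.1, p.2⁆).prod

theorem lc_append {N : Type u} [Group N] (l m : List (N × N)) : lc (l ++ m) = lc l * lc m := by
  unfold lc
  rw [List.map_append, List.prod_append]

theorem lc_inv {N : Type u} [Group N] (l : List (N × N)) :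
    (lc l)⁻¹ = lc ((l.map fun p => (p.2, p.1)).reverse) := by
  unfold lc
  rw [List.prod_inv_reverse, List.map_reverse, List.map_map, List.map_map]
  congr 2
  refine List.map_congr_left fun p _ => ?_
  exact commutatorElement_inv p.1 p.2

theorem lc_eq {N : Type u} [Group N] (l : List (N × N)) :
    lc l = pc (fun i => (l.getD i (1, 1)).1) (fun i => (l.getD i (1, 1)).2) l.length := by
  unfold lc pc
  congr 1
  refine List.ext_getElem (by simp) fun i h1 h2 => ?_
  have h3 : i < l.length := by simpa using h1
  simp only [List.getElem_map, List.getElem_range]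
  rw [List.getD_eq_getElem l (1, 1) h3]

theorem pf_PCM : T_PCM.{u} := by
  intro N _ g hg
  have h : ∃ l : List (N × N), g = lc l := by
    rw [commutator_eq_closure] at hg
    induction hg using Subgroup.closure_induction with
    | mem x hx =>
      obtain ⟨a, b, rfl⟩ := hx
      exact ⟨[(a, b)], by simp [lc]⟩
    | one => exact ⟨[], rfl⟩
    | mul x y _ _ hx hy =>
      obtain ⟨l, rfl⟩ := hx
      obtain ⟨m, rfl⟩ := hy
      exact ⟨l ++ m, (lc_append l m).symm⟩
    | inv x _ hx =>
      obtain ⟨l, rfl⟩ := hx
      exact ⟨_, lc_inv l⟩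
  obtain ⟨l, rfl⟩ := h
  exact ⟨_, _, _, lc_eq l⟩

end Pool.Agent.H1.CLG
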